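import Mathlib

/-!
# Project EK, package PGR: a 2-group acting on an elementary abelian 2-group
-/

set_option autoImplicit false

namespace Pool.Agent.P8H85.EK

/-- The statement PGR. -/
def PGRStm : Prop := ∀ (G V : Type) [Group G] [Finite G] [AddCommGroup V] [Finite V]
  [DistribMulAction G V] (n : ℕ), Nat.card G = 2 ^ n → (∀ v : V, v + v = 0) →
  Nat.card V ≤ Nat.card {v : V // ∀ g : G, g • v = v} ^ Nat.card G

/-- A nonzero elementary abelian 2-group with an action of a 2-group has a nonzero fixed vector. -/
lemma fixed_ne (G V : Type) [Group G] [Finite G] [AddCommGroup V] [Finite V]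
    [DistribMulAction G V] (n : ℕ) (hG : Nat.card G = 2 ^ n) (h2 : ∀ v : V, v + v = 0)
    (hfix : ∀ v : V, (∀ g : G, g • v = v) → v = 0) (v : V) : v = 0 := by
  classical
  have : Fact (Nat.Prime 2) := ⟨Nat.prime_two⟩
  by_contra hv
  have h1 := (IsPGroup.of_card hG).card_modEq_card_fixedPoints V
  have h3 : Nat.card (MulAction.fixedPoints G V) = 1 := by
    rw [Nat.card_eq_one_iff_unique]
    refine ⟨⟨fun a b => Subtype.ext ?_⟩, ⟨⟨0, fun g => smul_zero g⟩⟩⟩
    rw [hfix a a.2, hfix b b.2]
  have h4 : 2 ∣ Nat.card V := by
    have h5 : addOrderOf v = 2 := by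
      apply addOrderOf_eq_prime
      · rw [two_nsmul]; exact h2 v
      · exact hv
    rw [← h5]
    exact addOrderOf_dvd_natCard v
  rw [h3] at h1
  have h6 := (Nat.modEq_zero_iff_dvd.2 h4).symm.trans h1
  exact absurd h6 (by decide)

/-- A 2-group acting on an elementary abelian 2-group. -/
theorem pgrc : PGRStm := by
  intro G V _ _ _ _ _ n hG h2
  classical
  let _ : Module (ZMod 2) V := AddCommGroup.zmodModule (n := 2) (fun v => by
    rw [two_nsmul]; exact h2 v)
  let W : AddSubgroup V :=
    { carrier := {v | ∀ g : G, g • v = v}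
      zero_mem' := fun g => smul_zero g
      add_mem' := fun {a b} ha hb g => by rw [smul_add, ha g, hb g]
      neg_mem' := fun {a} ha g => by rw [smul_neg, ha g] }
  obtain ⟨π, hπ⟩ := (AddSubgroup.toZModSubmodule 2 W).subtype.exists_leftInverse_of_injective
    (LinearMap.ker_eq_bot.2 Subtype.val_injective)
  let Φ : V → (G → AddSubgroup.toZModSubmodule 2 W) := fun v g => π (g • v)
  have hinj : Function.Injective Φ := by
    intro u v huv
    let N : AddSubgroup V :=
      { carrier := {v | ∀ g : G, π (g • v) = 0}
        zero_mem' := fun g => by rw [smul_zero, map_zero]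
        add_mem' := fun {a b} ha hb g => by rw [smul_add, map_add, ha g, hb g, add_zero]
        neg_mem' := fun {a} ha g => by rw [smul_neg, map_neg, ha g, neg_zero] }
    let _ : SMul G N := ⟨fun g v => ⟨g • (v : V), fun g' => by
      rw [← mul_smul]
      exact v.2 (g' * g)⟩⟩
    let _ : DistribMulAction G N :=
      { one_smul := fun v => Subtype.ext (one_smul G (v : V))
        mul_smul := fun g g' v => Subtype.ext (mul_smul g g' (v : V))
        smul_zero := fun g => Subtype.ext (smul_zero g)
        smul_add := fun g a b => Subtype.ext (smul_add g (a : V) (b : V)) }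
    have hmem : u - v ∈ N := by
      intro g
      rw [smul_sub, map_sub]
      have := congrFun huv g
      exact sub_eq_zero.2 this
    have h3 := fixed_ne G N n hG (fun a => Subtype.ext (h2 a)) (by
      intro a ha
      have h4 : (a : V) ∈ W := fun g => congrArg Subtype.val (ha g)
      have h5 := a.2 1
      rw [one_smul] at h5
      have h6 : π (a : V) = (⟨(a : V), h4⟩ : AddSubgroup.toZModSubmodule 2 W) :=
        LinearMap.congr_fun hπ (⟨(a : V), h4⟩ : AddSubgroup.toZModSubmodule 2 W)
      rw [h5] at h6
      exact Subtype.ext (congrArg Subtype.val h6).symm) ⟨u - v, hmem⟩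
    have h4 := congrArg Subtype.val h3
    exact sub_eq_zero.1 h4
  have h3 := Nat.card_le_card_of_injective Φ hinj
  rw [Nat.card_fun] at h3
  exact h3

end Pool.Agent.P8H85.EK
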