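import Pool.Agent.P8H15.EK.Stm
import Pool.Agent.P8H85.EK.PgrCore

/-!
# Project EK, package PGR
-/

set_option autoImplicit false

namespace Pool.Agent.P8H85.EK

/-- A 2-group acting on an elementary abelian 2-group. -/
theorem pgr : Pool.Agent.P8H15.EK.S_PGR := pgrc

end Pool.Agent.P8H85.EK
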